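import Pool.Agent.H5.AB.NU1
import Pool.Agent.H20.AB.SMD
import Pool.Agent.H78.AB.WID
import Pool.Agent.H85.AB.COV
import Pool.Agent.H20.AB.NU2B

/-!
# Row NU2A: numerical dimension two, first step
-/

set_option linter.unusedSectionVars false

namespace Pool.AB4

open AlgebraicGeometry CategoryTheory Order Filter Topology

variable {Y : Scheme.{0}} [IsIntegral Y] [IsLocallyNoetherian Y] {s : Y ⟶ Spec (.of ℂ)}

/-- the degree of a prime divisor with respect to `m M + H` -/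
theorem dg3_expand (hN : Numbers s) {M H : Pic Y} (hM : Nef s M) (hH : Ample H) (m : ℕ) {y : Y}
    (hy : height y = 3) : dg s y (m • M + H) =
      (m : ℝ) ^ 3 * i3 s y M M M + 3 * (m : ℝ) ^ 2 * i3 s y M M H + 3 * m * i3 s y M H H +
        i3 s y H H H := by
  rw [← i3_diag hN hy (ample_add hN hM hH m), i3_expand hN hy]
  push_cast
  ring

/-- the degree of `Y` with respect to `m M + H` -/
theorem dg4_expand (hN : Numbers s) {M H : Pic Y} (hM : Nef s M) (hH : Ample H) (m : ℕ) :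
    dg s (genericPoint Y) (m • M + H) =
      (m : ℝ) ^ 4 * i4 s M M M M + 4 * (m : ℝ) ^ 3 * i4 s M M M H + 6 * (m : ℝ) ^ 2 * i4 s M M H H +
        4 * m * i4 s M H H H + i4 s H H H H := by
  rw [← i4_diag hN (ample_add hN hM hH m), i4_expand hN]
  push_cast
  ring

/-- ROW NU2A. -/
theorem nu2A (hN : Numbers s) (hP : Positivity s) {M H : Pic Y} (hM : Nef s M) (hH : Ample H)
    (h3 : ∀ a, i4 s M M M a = 0) (hpos : 0 < i4 s M M H H) (hexc : Excess s M H 2) :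
    Covered s M ∨ ∃ (L : Pic Y) (d : ℝ), Ample L ∧
      ∀ x : Pt Y, ∃ p : Pr Y, p.1 ⤳ x.1 ∧ i3 s p.1 M M H = 0 ∧ dg s p.1 L ≤ d := by
  obtain ⟨c, hc, m₀, hm₀⟩ := hexc
  have hHn := nef_of_ample hN hH
  have hMHHH := hN.nef4 M H H H hM hHn hHn hHn
  have hHHHH := hN.nef4 H H H H hHn hHn hHn hHn
  obtain ⟨C, hCdef⟩ : ∃ C : ℝ, C = 6 * i4 s M M H H + 4 * i4 s M H H H + i4 s H H H H := ⟨_, rfl⟩
  have hposR : (1 : ℝ) ≤ i4 s M M H H := by exact_mod_cast hpos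
  have h1R : (0 : ℝ) ≤ i4 s M H H H := by exact_mod_cast hMHHH
  have h2R : (0 : ℝ) ≤ i4 s H H H H := by exact_mod_cast hHHHH
  have hC0 : 0 ≤ C := by rw [hCdef]; linarith
  have hvol : ∀ m : ℕ, 1 ≤ m → dg s (genericPoint Y) (m • M + H) ≤ C * (m : ℝ) ^ 2 := by
    intro m hm
    have hm1 : (1 : ℝ) ≤ m := by exact_mod_cast hm
    rw [dg4_expand hN hM hH m, h3 M, h3 H, hCdef]
    push_cast
    have e1 : (m : ℝ) ≤ (m : ℝ) ^ 2 := le_self_pow₀ hm1 (by norm_num)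
    have e2 : (1 : ℝ) ≤ (m : ℝ) ^ 2 := hm1.trans e1
    nlinarith [mul_le_mul_of_nonneg_left e1 h1R, mul_le_mul_of_nonneg_left e2 h2R]
  obtain ⟨N₀, hN₀⟩ := large_N1 hc hC0
  obtain ⟨N, hN1, hNN, hNm⟩ : ∃ N : ℕ, 1 ≤ N ∧ N₀ ≤ N ∧ m₀ ≤ N ^ 2 := by
    refine ⟨max 1 (max N₀ m₀), le_max_left _ _, (le_max_left _ _).trans (le_max_right _ _), ?_⟩
    exact ((le_max_right _ _).trans (le_max_right _ _)).trans
      (Nat.le_self_pow (by norm_num) _)
  have hNr : (1 : ℝ) ≤ N := by exact_mod_cast hN1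
  have hNpos : (0 : ℝ) < N := by linarith
  have hm1 : 1 ≤ N ^ 2 := Nat.one_le_pow _ _ (by omega)
  obtain ⟨L, hLdef⟩ : ∃ L : Pic Y, L = (N ^ 2) • M + H := ⟨_, rfl⟩
  have hL : Ample L := by rw [hLdef]; exact ample_add hN hM hH (N ^ 2)
  have hα : (0 : ℝ) < (N : ℝ) / 5 := by positivity
  have hv : dg s (genericPoint Y) L ≤ C * (N : ℝ) ^ 4 := by
    have h4 := hvol (N ^ 2) hm1
    rw [hLdef]
    refine h4.trans (le_of_eq ?_)
    push_cast
    ring
  have he : 96 * (C * (N : ℝ) ^ 4 / ((N : ℝ) / 5) ^ 3 + 1) ^ 3 <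
      24 * (h0 s L : ℝ) - dg s (genericPoint Y) L := by
    have h1 := hm₀ (N ^ 2) hNm
    have h2 := hN₀ N hNN hN1
    rw [hLdef]
    refine (h2.trans_le (le_of_eq ?_)).trans_le h1
    push_cast
    ring
  have hno := no_sesh_of_excess hN hP (fun x _ hL _ hμ h => width4 hN hP x hL hμ h) hL hα hv he
  have hg : height (genericPoint Y) = 4 := height_generic hN
  obtain ⟨r, hr1, hr4, Z, hZ, hgZ, hZr⟩ := cover hN hP (w := genericPoint Y)
    (by rw [hg]; decide) hL hα (B := ∅) isClosed_empty (by simp) (fun x _ _ => hno x)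
  have hr4' : r ≤ 4 := by
    rw [hg] at hr4
    exact_mod_cast hr4
  have hxZ : ∀ x : Pt Y, x.1 ∈ Z := fun x =>
    hZ.closure_subset_iff.2 (Set.singleton_subset_iff.2 hgZ)
      ((genericPoint_specializes x.1).mem_closure)
  -- subvarieties of small degree
  have hcase : ((r : ℝ) * ((N : ℝ) / 5)) ^ r < ((N ^ 2 : ℕ) : ℝ) → Covered s M := by
    intro hlt x
    obtain ⟨y, _, hyx, hyr, hdy⟩ := hZr x (hxZ x)
    have hy1 : 1 ≤ height y := by
      rw [hyr]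
      exact_mod_cast hr1
    have hCC := small_deg hN hM hH hm1 hy1 (by rw [← hLdef]; exact hdy.trans_lt hlt)
    obtain ⟨D, hyD, hDx⟩ := hN.curve y x hyx hy1
    exact ⟨D, hDx, hCC D hyD⟩
  have hN2 : (0 : ℝ) < (N : ℝ) ^ 2 := by positivity
  interval_cases r
  · left
    refine hcase ?_
    have : (N : ℝ) ≤ (N : ℝ) ^ 2 := le_self_pow₀ hNr (by norm_num)
    push_cast
    linarith
  · left
    refine hcase ?_
    push_cast
    nlinarith
  · right
    refine ⟨L, (((3 : ℕ) : ℝ) * ((N : ℝ) / 5)) ^ 3, hL, fun x => ?_⟩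
    obtain ⟨y, _, hyx, hyr, hdy⟩ := hZr x (hxZ x)
    have hy3 : height y = 3 := hyr
    refine ⟨⟨y, prime_of_height hN hy3⟩, hyx, ?_, hdy⟩
    have hMMM := hN.nef3 y hy3 M M M hM hM hM
    have hMMH := hN.nef3 y hy3 M M H hM hM hHn
    have hMHH := hN.nef3 y hy3 M H H hM hHn hHn
    have hHHH := hN.nef3 y hy3 H H H hHn hHn hHn
    rcases hMMH.eq_or_lt with h | h
    · exact h.symm
    · exfalso
      rw [hLdef, dg3_expand hN hM hH _ hy3] at hdy
      have a1 : (0 : ℝ) ≤ i3 s y M M M := by exact_mod_cast hMMM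
      have a2 : (1 : ℝ) ≤ i3 s y M M H := by exact_mod_cast h
      have a3 : (0 : ℝ) ≤ i3 s y M H H := by exact_mod_cast hMHH
      have a4 : (0 : ℝ) ≤ i3 s y H H H := by exact_mod_cast hHHH
      push_cast at hdy
      have b1 : (0 : ℝ) ≤ ((N : ℝ) ^ 2) ^ 3 * i3 s y M M M := by positivity
      have b3 : (0 : ℝ) ≤ 3 * (N : ℝ) ^ 2 * i3 s y M H H := by positivity
      have b2 : 3 * ((N : ℝ) ^ 2) ^ 2 ≤ 3 * ((N : ℝ) ^ 2) ^ 2 * i3 s y M M H :=
        le_mul_of_one_le_right (by positivity) a2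
      have b4 : (N : ℝ) ^ 3 ≤ ((N : ℝ) ^ 2) ^ 2 := by
        rw [← pow_mul]
        exact pow_le_pow_right₀ hNr (by norm_num)
      have b5 : (0 : ℝ) < (N : ℝ) ^ 3 := by positivity
      have b6 : (3 * ((N : ℝ) / 5)) ^ 3 = 27 / 125 * (N : ℝ) ^ 3 := by ring
      rw [b6] at hdy
      linarith
  · exfalso
    obtain ⟨x, hx⟩ : ∃ x : Pt Y, x.1 ∈ Z := by
      obtain ⟨x, -, -⟩ := exists_point hN hP hL (w := genericPoint Y) (by rw [hg]; decide)
        (B := ∅) isClosed_empty (by simp)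
      exact ⟨x, hxZ x⟩
    obtain ⟨y, _, hyx, hyr, hdy⟩ := hZr x (hxZ x)
    have hy4 : height y = 4 := hyr
    have hyg := eq_generic_of_height hN hy4
    rw [hyg, hLdef, dg4_expand hN hM hH _, h3 M, h3 H] at hdy
    push_cast at hdy
    have b1 : 6 * ((N : ℝ) ^ 2) ^ 2 ≤ 6 * ((N : ℝ) ^ 2) ^ 2 * i4 s M M H H :=
      le_mul_of_one_le_right (by positivity) hposR
    have b2 : (0 : ℝ) ≤ 4 * (N : ℝ) ^ 2 * i4 s M H H H := by positivity
    have b3 : (4 * ((N : ℝ) / 5)) ^ 4 = 256 / 625 * ((N : ℝ) ^ 2) ^ 2 := by ring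
    have b4 : (0 : ℝ) < ((N : ℝ) ^ 2) ^ 2 := by positivity
    rw [b3] at hdy
    linarith

end Pool.AB4
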